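import Pool.Agent.R910.Mu.RelGrowth

/-!
# Iwasawa's mu-conjecture, all primes: extensions of `p`-power degree of one imaginary quadratic
field suffice
-/

set_option autoImplicit false

open NumberField

namespace Pool.Agent.Results.MP_d0239a_nt.AllPrimes

open Pool.Agent.R910.Mu

/-- The subgroup of the class group generated by the prime ideals above `p`. -/
noncomputable def classesAbove (p : ℕ) (K : Type) [Field K] [NumberField K] :
    Subgroup (ClassGroup (𝓞 K)) :=
  Subgroup.closure {c | ∃ I : nonZeroDivisors (Ideal (𝓞 K)), (I : Ideal (𝓞 K)).IsPrime ∧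
    (p : 𝓞 K) ∈ (I : Ideal (𝓞 K)) ∧ ClassGroup.mk0 I = c}

/-- The number of elements of order dividing `p` in the class group modulo the classes of the
prime ideals above `p`. -/
noncomputable def torsionCard (p : ℕ) (K : Type) [Field K] [NumberField K] : ℕ :=
  Nat.card {g : ClassGroup (𝓞 K) ⧸ classesAbove p K // g ^ p = 1}

/-- The field `E` is the layer of degree `p ^ n` of the cyclotomic `Z_p`-extension of `ℚ`: the
totally real field of degree `p ^ n` inside the field of the roots of unity of order
`p ^ (n + 2)`. -/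
def IsLayer (p n : ℕ) (E : IntermediateField ℚ Om) : Prop :=
  E ≤ IntermediateField.adjoin ℚ {z : Om | z ^ (p ^ (n + 2)) = 1} ∧
    Module.finrank ℚ E = p ^ n ∧ ∀ (σ : Om →+* ℂ), ∀ x ∈ E, starRingEnd ℂ (σ x) = σ x

/-- The statement of the problem for one prime `p` and one number field `F` (inside the algebraic
closure of `ℚ`): the `p`-torsion of the class group of the `n`-th layer of the cyclotomic
`Z_p`-extension, modulo the classes of the primes above `p`, is bounded. -/
def MuVanishes (p : ℕ) (F : IntermediateField ℚ Om) : Prop :=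
  ∃ C : ℕ, ∀ (n : ℕ) (E : IntermediateField ℚ Om), IsLayer p n E →
    ∀ [NumberField ↥(F ⊔ E)], torsionCard p ↥(F ⊔ E) ≤ C

/-- The localized cohomology theory over the imaginary quadratic field `k` computes the class
groups. For the Iwasawa cohomology of the twists `A(1)` of finite modules `A` this is known: the
second cohomology of the twisted permutation module of `F` has the rank of `X(F)/p`, the number of
factors `Λ/(p ^ m_i)` of the Iwasawa module `X(F)` of `F`; the first cohomology of `Z/p(1)` over
`k` has rank one, by the Euler characteristic formula and the theorem of Ferrero and Washington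
for `k`; and the norms from `F k` to `F` have finite cokernel. -/
structure ComputesClassGroups {p : ℕ} [Fact p.Prime] {k : IntermediateField ℚ Om}
    (T : LocalizedCohomology p (GalRel k)) : Prop where
  h1_triv : T.h1 (triv p (GalRel k)) = 1
  zero_iff : ∀ (F : IntermediateField ℚ Om) (hF : FiniteDimensional ℚ F), k ≤ F →
    (T.h2 (permRel p k F hF) = 0 ↔ MuVanishes p F)
  descent : ∀ F : IntermediateField ℚ Om, FiniteDimensional ℚ F →
    MuVanishes p (F ⊔ k) → MuVanishes p F

/-- **Extensions of `p`-power degree of one imaginary quadratic field suffice.** -/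
theorem result (p : ℕ) [Fact p.Prime] (k : IntermediateField ℚ Om)
    (hk : Module.finrank ℚ k = 2) (_him : IsEmpty (k →+* ℝ))
    (hsol : HasSplitSolutions p (GalRel k)) (T : LocalizedCohomology p (GalRel k))
    (hT : ComputesClassGroups T) :
    (∀ (F : IntermediateField ℚ Om) (hF : FiniteDimensional ℚ F), k ≤ F → ∀ m : ℕ,
      ∃ (F' : IntermediateField ℚ Om) (hF' : FiniteDimensional ℚ F'), k ≤ F' ∧
        (∃ e : ℕ, 2 * e = (m + 1) * Module.finrank ℚ F ∧ Module.finrank ℚ F' = 2 * p ^ e) ∧
        (m + 1) * T.h2 (permRel p k F hF) ≤ T.h2 (permRel p k F' hF') + 1) ∧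
    ((∀ F : IntermediateField ℚ Om, FiniteDimensional ℚ F → MuVanishes p F) ↔
      ∀ F : IntermediateField ℚ Om, FiniteDimensional ℚ F → k ≤ F →
        (∃ n : ℕ, Module.finrank ℚ F = 2 * p ^ n) → MuVanishes p F) := by
  have hkf : FiniteDimensional ℚ k := Module.finite_of_finrank_pos (by omega)
  have h1 : ∀ (F : IntermediateField ℚ Om) (hF : FiniteDimensional ℚ F), k ≤ F → ∀ m : ℕ,
      ∃ (F' : IntermediateField ℚ Om) (hF' : FiniteDimensional ℚ F'), k ≤ F' ∧
        (∃ e : ℕ, 2 * e = (m + 1) * Module.finrank ℚ F ∧ Module.finrank ℚ F' = 2 * p ^ e) ∧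
        (m + 1) * T.h2 (permRel p k F hF) ≤ T.h2 (permRel p k F' hF') + 1 := by
    intro F hF hkF m
    obtain ⟨F', hF', hkF', hd, hle⟩ := exists_growth_rel hkf hsol T F hF m
    rw [hT.h1_triv] at hle
    refine ⟨F', hF', hkF', ⟨(m + 1) * (relSub k F).index, ?_, ?_⟩, hle⟩
    · rw [← index_relSub hkF, hk]
      ring
    · rw [hd, hk, mul_comm]
  refine ⟨h1, fun h F hF _ _ => h F hF, fun h F hF => hT.descent F hF ?_⟩
  haveI := hkf
  haveI := hF
  have hFk : FiniteDimensional ℚ ↥(F ⊔ k) := inferInstance
  obtain ⟨F', hF', hkF', ⟨e, _, he⟩, hle⟩ := h1 (F ⊔ k) hFk le_sup_right 1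
  have h0 := (hT.zero_iff F' hF' hkF').mpr (h F' hF' hkF' ⟨e, he⟩)
  rw [← hT.zero_iff (F ⊔ k) hFk le_sup_right]
  omega

end Pool.Agent.Results.MP_d0239a_nt.AllPrimes
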