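import Pool.Agent.R910.Mu.RelLayers

/-!
# Iwasawa's mu-conjecture, all primes: growth in elementary abelian extensions of a totally
imaginary counterexample
-/

set_option autoImplicit false

open NumberField

namespace Pool.Agent.Results.MP_d0239a_nt.ImaginaryGrowth

open Pool.Agent.R910.Mu

/-- The subgroup of the class group generated by the prime ideals above `p`. -/
noncomputable def classesAbove (p : ℕ) (K : Type) [Field K] [NumberField K] :
    Subgroup (ClassGroup (𝓞 K)) :=
  Subgroup.closure {c | ∃ I : nonZeroDivisors (Ideal (𝓞 K)), (I : Ideal (𝓞 K)).IsPrime ∧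
    (p : 𝓞 K) ∈ (I : Ideal (𝓞 K)) ∧ ClassGroup.mk0 I = c}

/-- The number of elements of order dividing `p` in the class group modulo the classes of the
prime ideals above `p`. -/
noncomputable def torsionCard (p : ℕ) (K : Type) [Field K] [NumberField K] : ℕ :=
  Nat.card {g : ClassGroup (𝓞 K) ⧸ classesAbove p K // g ^ p = 1}

/-- The field `E` is the layer of degree `p ^ n` of the cyclotomic `Z_p`-extension of `ℚ`: the
totally real field of degree `p ^ n` inside the field of the roots of unity of order
`p ^ (n + 2)`. -/
def IsLayer (p n : ℕ) (E : IntermediateField ℚ Om) : Prop :=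
  E ≤ IntermediateField.adjoin ℚ {z : Om | z ^ (p ^ (n + 2)) = 1} ∧
    Module.finrank ℚ E = p ^ n ∧ ∀ (σ : Om →+* ℂ), ∀ x ∈ E, starRingEnd ℂ (σ x) = σ x

/-- The statement of the problem for one prime `p` and one number field `F` (inside the algebraic
closure of `ℚ`): the `p`-torsion of the class group of the `n`-th layer of the cyclotomic
`Z_p`-extension, modulo the classes of the primes above `p`, is bounded. -/
def MuVanishes (p : ℕ) (F : IntermediateField ℚ Om) : Prop :=
  ∃ C : ℕ, ∀ (n : ℕ) (E : IntermediateField ℚ Om), IsLayer p n E →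
    ∀ [NumberField ↥(F ⊔ E)], torsionCard p ↥(F ⊔ E) ≤ C

/-- The number of infinite places of `F`. -/
noncomputable def places (F : IntermediateField ℚ Om) : ℕ := Nat.card (InfinitePlace F)

/-- The cohomology theory over the totally imaginary number field `F` describes the modules `X`,
and has the Euler characteristics of the cohomology of the twists `A(1)` of finite modules `A`.
For the Iwasawa cohomology of the twists `A(1)`, tensored with `F_p((T))`, this is known, for all
primes `p` since `F` has no real places. -/
structure ComputesClassGroups {p : ℕ} [Fact p.Prime] {F : IntermediateField ℚ Om}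
    (T : FullCohomology p (GalRel F)) : Prop where
  euler : ∀ A : GMod p (GalRel F), T.h1 A = T.h2 A + places F * Module.finrank (ZMod p) A.carrier
  zero_iff : T.h2 (triv p (GalRel F)) = 0 ↔ MuVanishes p F

/-- **Growth.** For Iwasawa cohomology `T.h2 (triv p (GalRel F))` and `T.h2 (permRel p F M hM)`
are the numbers of factors `Λ/(p ^ m)` of the modules `X` of `F` and of `M`. -/
theorem result (p : ℕ) [Fact p.Prime] (F : IntermediateField ℚ Om)
    (_hF : FiniteDimensional ℚ F) (_him : IsEmpty (F →+* ℝ)) (T : FullCohomology p (GalRel F))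
    (hT : ComputesClassGroups T) (b : ℕ) (M : IntermediateField ℚ Om)
    (hM : FiniteDimensional ℚ M) (hel : IsElemOver p F M b) :
    (∀ j : ℕ, j ≤ b * (p - 1) →
      countEq p b j * T.h2 (triv p (GalRel F)) ≤
        T.h2 (permRel p F M hM) + places F * countLt p b j) ∧
    (¬ MuVanishes p F → ∀ j : ℕ, (places F + 3) * j ≤ b →
      (places F + 2) ^ j ≤ (places F + 1) * T.h2 (permRel p F M hM)) :=
  ⟨fun j hj => layers_rel F T (places F) b M hM hel (fun A _ => hT.euler A) j hj,
    fun h j hj => exponential_rel F T (places F) b M hM hel (fun A _ => hT.euler A)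
      (fun h0 => h (hT.zero_iff.mp h0)) j hj⟩

end Pool.Agent.Results.MP_d0239a_nt.ImaginaryGrowth
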