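import Pool.Agent.R493.MU.H

/-!
# Iwasawa's `mu`-conjecture and groups of automorphisms of order prime to `p`

Let `p` be a prime, `F` a number field and `G` a group of automorphisms of `F` of order prime to
`p`. If the conjecture holds for the fixed fields of the subgroups of prime order of `G` but not for
`F`, then `G` has a nonzero representation modulo `p` in which no element `g ≠ 1` has a nonzero
fixed vector (so `G` is trivial or a Frobenius complement), and every subgroup of `G` whose order is
a product of two primes is cyclic. There is no hypothesis besides this.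

Proof. Let `F_n = F E` be a layer of the cyclotomic tower and `A(F_n)` its class group modulo the
classes of the primes above `p`. As the order of `G` is prime to the degree of `E`, every `g` in `G`
extends to an automorphism of `F_n` which is trivial on `E`, and the fixed field of `g` in `F_n` is
the layer of the fixed field of `g` in `F`. Let `J` be the left ideal of `𝔽_p[G]` generated by the
elements `N_h b`, `b ∈ G`, `h ∈ G` of prime order. If `J ≠ 𝔽_p[G]`, then `𝔽_p[G] / J` is the
representation. If `J = 𝔽_p[G]`, there are integers `c_i` with `1 + p y = ∑ c_i a_i N_{h_i} b_i` in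
`ℤ[G]`, so `A(F_n)` is generated modulo `p`-th powers by the conjugates of the images of the groups
`A((F ^ h_i)_n)`, and the order of `A(F_n)[p]` is at most the product of the orders of the groups
`A((F ^ h_i)_n)[p]`.
-/

set_option autoImplicit false

namespace Pool.Agent.Results.MP_d0239a_nt.MinimalCounterexamples

open NumberField

/-- The algebraic closure of `ℚ`; number fields are its finite subfields. -/
abbrev Om : Type := AlgebraicClosure ℚ

/-- The subgroup of the class group generated by the prime ideals above `p`. -/
noncomputable def classesAbove (p : ℕ) (K : Type) [Field K] [NumberField K] :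
    Subgroup (ClassGroup (𝓞 K)) :=
  Subgroup.closure {c | ∃ I : nonZeroDivisors (Ideal (𝓞 K)), (I : Ideal (𝓞 K)).IsPrime ∧
    (p : 𝓞 K) ∈ (I : Ideal (𝓞 K)) ∧ ClassGroup.mk0 I = c}

/-- The number of elements of order dividing `p` in the class group modulo the classes of the
prime ideals above `p`. -/
noncomputable def torsionCard (p : ℕ) (K : Type) [Field K] [NumberField K] : ℕ :=
  Nat.card {g : ClassGroup (𝓞 K) ⧸ classesAbove p K // g ^ p = 1}

/-- `mu = 0` for the prime `p` and the number field `F`, in the form of the frozen statement: the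
`p`-torsion of the class group of the `n`-th layer of the cyclotomic `Z_p`-extension of `F`, modulo
the classes of the primes above `p`, is bounded. -/
def MuVanishes (p : ℕ) (F : IntermediateField ℚ Om) : Prop :=
  ∃ C : ℕ, ∀ (n : ℕ) (E : IntermediateField ℚ Om),
    E ≤ IntermediateField.adjoin ℚ {z : Om | z ^ (p ^ (n + 2)) = 1} →
    Module.finrank ℚ E = p ^ n → (∀ (φ : Om →+* ℂ), ∀ x ∈ E, (φ x).im = 0) →
      ∀ [NumberField ↥(F ⊔ E)], torsionCard p ↥(F ⊔ E) ≤ C

/-- The group of automorphisms of `F`. -/
def AutF (F : IntermediateField ℚ Om) : Type := F ≃ₐ[ℚ] F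

noncomputable instance (F : IntermediateField ℚ Om) : Group (AutF F) :=
  (AlgEquiv.aut : Group (F ≃ₐ[ℚ] F))

noncomputable instance (F : IntermediateField ℚ Om) : FunLike (AutF F) F F :=
  (AlgEquiv.instFunLike : FunLike (F ≃ₐ[ℚ] F) F F)

/-- The fixed field in `F` of a group `H` of automorphisms of `F` (the field generated by the fixed
elements). -/
noncomputable def fixedIn (F : IntermediateField ℚ Om) (H : Subgroup (AutF F)) :
    IntermediateField ℚ Om :=
  IntermediateField.adjoin ℚ {x : Om | ∃ hx : x ∈ F, ∀ h ∈ H, h ⟨x, hx⟩ = ⟨x, hx⟩}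

/-- `G` has a nonzero finite dimensional representation over the field with `p` elements in which
no `g ≠ 1` has a nonzero fixed vector. -/
def HasFixedPointFreeRep (p : ℕ) [Fact p.Prime] (G : Type) [Group G] : Prop :=
  ∃ (W : Type) (_ : AddCommGroup W) (_ : Module (ZMod p) W) (_ : FiniteDimensional (ZMod p) W)
    (ρ : Representation (ZMod p) G W), Nontrivial W ∧ ∀ g : G, g ≠ 1 → ∀ w, ρ g w = w → w = 0

/-- The automorphisms of a minimal counterexample to Iwasawa's `mu`-conjecture. -/
theorem result (p : ℕ) [Fact p.Prime] (F : IntermediateField ℚ Om)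
    [FiniteDimensional ℚ F] (G : Subgroup (AutF F)) (hp : ¬ p ∣ Nat.card G)
    (hF : ¬ MuVanishes p F)
    (hG : ∀ H : Subgroup (AutF F), H ≤ G → (Nat.card H).Prime → MuVanishes p (fixedIn F H)) :
    HasFixedPointFreeRep p G ∧
    ∀ P : Subgroup (AutF F), P ≤ G → ∀ l q : ℕ, l.Prime → q.Prime →
      Nat.card P = l * q → IsCyclic P := by
  have hfin : Finite (AutF F) := inferInstanceAs (Finite (F ≃ₐ[ℚ] F))
  have h : HasFixedPointFreeRep p G := R493.MU.fpf_mu' p F G hp
    (fun H hH hc => R493.MU.fixedIn_eq F H ▸ hG H hH hc) hF
  exact ⟨h, fun P hP l q hl hq hc => R493.MU.cyclic_sub p G hp h P hP l q hl hq hc⟩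

end Pool.Agent.Results.MP_d0239a_nt.MinimalCounterexamples
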