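import Pool.Agent.R910.Mu.Quad

/-!
# Iwasawa's mu-conjecture: composita of one imaginary quadratic field with primitive fields of
`p`-power degree suffice
-/

set_option autoImplicit false

open NumberField

namespace Pool.Agent.Results.MP_d0239a_nt.PrimitiveFields

open Pool.Agent.R910.Mu

/-- The subgroup of the class group generated by the prime ideals above `p`. -/
noncomputable def classesAbove (p : ℕ) (K : Type) [Field K] [NumberField K] : Subgroup (ClassGroup (𝓞 K)) :=
  Subgroup.closure {c | ∃ I : nonZeroDivisors (Ideal (𝓞 K)), (I : Ideal (𝓞 K)).IsPrime ∧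
    (p : 𝓞 K) ∈ (I : Ideal (𝓞 K)) ∧ ClassGroup.mk0 I = c}

/-- The number of elements of order dividing `p` in the class group modulo the classes of the
prime ideals above `p`. -/
noncomputable def torsionCard (p : ℕ) (K : Type) [Field K] [NumberField K] : ℕ :=
  Nat.card {g : ClassGroup (𝓞 K) ⧸ classesAbove p K // g ^ p = 1}

/-- The statement of the problem for one odd prime `p` and one number field `F` (inside the
algebraic closure of `ℚ`): the `p`-torsion of the class group of the `n`-th layer of the cyclotomic
`Z_p`-extension, modulo the classes of the primes above `p`, is bounded. -/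
def MuVanishes (p : ℕ) (F : IntermediateField ℚ Om) : Prop :=
  ∃ C : ℕ, ∀ (n : ℕ) (E : IntermediateField ℚ Om),
    E ≤ IntermediateField.adjoin ℚ {z : Om | z ^ (p ^ (n + 2)) = 1} →
    Module.finrank ℚ E = p ^ n → ∀ [NumberField ↥(F ⊔ E)], torsionCard p ↥(F ⊔ E) ≤ C

/-- The localized cohomology theory computes the class groups. For the Iwasawa cohomology of the
twists `A(1)` of finite modules `A` this is known: the second cohomology of the twisted permutation
module of `F` has the rank of `X(F)/p`, the number of factors `Λ/(p ^ m_i)` of the Iwasawa module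
`X(F)` of `F`; and for an imaginary quadratic field `k` the first cohomology of the twist by its
character has rank zero, by the Euler characteristic formula and the theorem of Ferrero and
Washington for `k`. -/
structure ComputesClassGroups {p : ℕ} [Fact p.Prime] (T : LocalizedCohomology p Gal) : Prop where
  h1_imaginary : ∀ (k : IntermediateField ℚ Om) (hk : Module.finrank ℚ k = 2),
    IsEmpty (k →+* ℝ) → T.h1 ((triv p Gal).twist (quadChar p k hk) (quadChar_open k hk)) = 0
  muRank_eq_zero : ∀ (F : IntermediateField ℚ Om) (hF : FiniteDimensional ℚ F),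
    muRank T F hF = 0 ↔ MuVanishes p F

/-- **Primitive fields of `p`-power degree, composed with one imaginary quadratic field,
suffice.** -/
theorem result (p : ℕ) [Fact p.Prime] (_hp : p ≠ 2) (hsol : HasSplitSolutions p Gal)
    (T : LocalizedCohomology p Gal) (hT : ComputesClassGroups T)
    (k : IntermediateField ℚ Om) (hk : Module.finrank ℚ k = 2) (him : IsEmpty (k →+* ℝ)) :
    (∀ F : IntermediateField ℚ Om, FiniteDimensional ℚ F →
      (∀ F' : IntermediateField ℚ Om, FiniteDimensional ℚ F' → IsPrimitive F' →
        (∃ n : ℕ, n ≤ Module.finrank ℚ F ∧ Module.finrank ℚ F' = p ^ n) →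
          MuVanishes p (F' ⊔ k)) →
      MuVanishes p F) ∧
    ((∀ F : IntermediateField ℚ Om, FiniteDimensional ℚ F → MuVanishes p F) ↔
      ∀ F' : IntermediateField ℚ Om, FiniteDimensional ℚ F' → IsPrimitive F' →
        (∃ n : ℕ, Module.finrank ℚ F' = p ^ n) → MuVanishes p (F' ⊔ k)) := by
  have hkf : FiniteDimensional ℚ k := Module.finite_of_finrank_pos (by omega)
  have h1 : ∀ F : IntermediateField ℚ Om, FiniteDimensional ℚ F →
      (∀ F' : IntermediateField ℚ Om, FiniteDimensional ℚ F' → IsPrimitive F' →
        (∃ n : ℕ, n ≤ Module.finrank ℚ F ∧ Module.finrank ℚ F' = p ^ n) →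
          MuVanishes p (F' ⊔ k)) →
      MuVanishes p F := by
    intro F hF h
    rw [← hT.muRank_eq_zero F hF]
    refine muRank_eq_zero_of_primitive hsol T k hk (hT.h1_imaginary k hk him) F hF ?_
    intro F' hF' hFk n hprim hdeg hn
    exact (hT.muRank_eq_zero _ hFk).mpr (h F' hF' hprim ⟨n, hn, hdeg⟩)
  refine ⟨h1, fun h F' hF' _ _ => ?_, fun h F hF => h1 F hF fun F' hF' hp' hn => ?_⟩
  · haveI := hF'
    exact h _ inferInstance
  · obtain ⟨n, _, hn⟩ := hn
    exact h F' hF' hp' ⟨n, hn⟩

end Pool.Agent.Results.MP_d0239a_nt.PrimitiveFields
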